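import Mathlib
import Pool.Agent.H207.SR.Final
import Pool.Agent.H207.SR.Three

set_option autoImplicit false

namespace Pool.Agent.Results.MP_d0f9e0_co.ForeignVectors

/-- `x` is a maximal equiangular tight frame in `ℂ^d`: `d²` unit vectors with pairwise inner
products of modulus `1/√(d+1)`. -/
def IsMaxETF (d : ℕ) (x : Fin (d ^ 2) → EuclideanSpace ℂ (Fin d)) : Prop :=
  (∀ i, ‖x i‖ = 1) ∧ ∀ i j, i ≠ j → ‖inner ℂ (x i) (x j)‖ = 1 / Real.sqrt ((d : ℝ) + 1)

/-- The number of indices `i` with `|⟨x_i, z⟩| = a`. -/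
noncomputable def linesAt {d : ℕ} (x : Fin (d ^ 2) → EuclideanSpace ℂ (Fin d))
    (z : EuclideanSpace ℂ (Fin d)) (a : ℝ) : ℕ :=
  Nat.card {i // ‖inner ℂ (x i) z‖ = a}

/-- The number of indices `i` such that the line of `x_i` is the line of some `y_j`. -/
noncomputable def commonLines {d : ℕ} (x y : Fin (d ^ 2) → EuclideanSpace ℂ (Fin d)) : ℕ :=
  Nat.card {i // ∃ (j : Fin (d ^ 2)) (c : ℂ), x i = c • y j}

/-- The bounds `N ≤ d² - d`, `N ≤ d² - d^(3/2)/8`, and `N ≤ d² - (1 - ε) d^(3/2)` for all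
`ε > 0` with `128 ≤ ε⁴ √d`. -/
def Few (d N : ℕ) : Prop :=
  N + d ≤ d ^ 2 ∧ (N : ℝ) ≤ (d : ℝ) ^ 2 - d * Real.sqrt d / 8 ∧
    ∀ ε : ℝ, 0 < ε → 128 ≤ ε ^ 4 * Real.sqrt d →
      (N : ℝ) ≤ (d : ℝ) ^ 2 - (1 - ε) * (d * Real.sqrt d)

theorem Few.mono {d N N' : ℕ} (h : Few d N) (h' : N' ≤ N) : Few d N' := by
  have h'' : (N' : ℝ) ≤ N := by exact_mod_cast h'
  exact ⟨by have := h.1; omega, h''.trans h.2.1, fun ε h1 h2 => h''.trans (h.2.2 ε h1 h2)⟩

/-- The coefficient of `z z^*` at `x_i x_i^*`, when `z z^*` is written as a linear combination of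
the `d²` projections `x_i x_i^*`. -/
noncomputable def weight {d : ℕ} (x : Fin (d ^ 2) → EuclideanSpace ℂ (Fin d))
    (z : EuclideanSpace ℂ (Fin d)) (i : Fin (d ^ 2)) : ℝ :=
  (((d : ℝ) + 1) * ‖inner ℂ (x i) z‖ ^ 2 - 1) / d

theorem foreign {d : ℕ} (hd : 0 < d) {x : Fin (d ^ 2) → EuclideanSpace ℂ (Fin d)}
    (hx : IsMaxETF d x) {z : EuclideanSpace ℂ (Fin d)} (hz : ‖z‖ = 1)
    (hf : ∀ (i : Fin (d ^ 2)) (c : ℂ), z ≠ c • x i) :
    Few d (linesAt x z (1 / Real.sqrt ((d : ℝ) + 1))) ∧ ∀ i, 0 < weight x z i →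
      (linesAt x z (1 / Real.sqrt ((d : ℝ) + 1)) : ℝ) ≤
        (d : ℝ) ^ 2 - 1 - weight x z i ^ 4 * (d * (d + 1)) / (2 * (1 + weight x z i) ^ 2) := by
  classical
  have hp : ∀ i, ‖inner ℂ (x i) z‖ ^ 2 < 1 := fun i =>
    Pool.Agent.H207.SR.lt_one_of_foreign hz (hx.1 i) (hf i)
  have hcard : linesAt x z (1 / Real.sqrt ((d : ℝ) + 1)) +
      (Finset.univ.filter fun i => Pool.Agent.H207.SR.wt x z i ≠ 0).card = d ^ 2 := by
    have h1 : linesAt x z (1 / Real.sqrt ((d : ℝ) + 1)) =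
        (Finset.univ.filter fun i => Pool.Agent.H207.SR.wt x z i = 0).card := by
      rw [linesAt, Nat.card_eq_fintype_card, Fintype.card_subtype]
      congr 1
      ext i
      rw [Finset.mem_filter, Finset.mem_filter, Pool.Agent.H207.SR.wt_eq_zero_iff hd]
    rw [h1]
    have h2 := Finset.card_filter_add_card_filter_not (s := (Finset.univ : Finset (Fin (d ^ 2))))
      (fun i => Pool.Agent.H207.SR.wt x z i = 0)
    rw [Finset.card_univ, Fintype.card_fin] at h2
    exact h2
  set N := linesAt x z (1 / Real.sqrt ((d : ℝ) + 1))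
  set n := (Finset.univ.filter fun i => Pool.Agent.H207.SR.wt x z i ≠ 0).card with hn
  have hcard' : (N : ℝ) + n = (d : ℝ) ^ 2 := by exact_mod_cast hcard
  have b1 := Pool.Agent.H207.SR.card_ge_d hd hx hz hp
  have b2 := Pool.Agent.H207.SR.card_ge_eighth hd hx hz hp
  rw [← hn] at b1 b2
  refine ⟨⟨by omega, by linarith, fun ε h1 h2 => ?_⟩, fun i hi => ?_⟩
  · have b3 := Pool.Agent.H207.SR.card_ge_eps hd hx hz hp h1 h2
    rw [← hn] at b3
    linarith
  · have b4 := Pool.Agent.H207.SR.caseA hd hx hz i (hp i) hi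
    rw [← hn] at b4
    have hw : Pool.Agent.H207.SR.wt x z i = weight x z i := rfl
    rw [hw] at b4
    have h5 : weight x z i ^ 4 * (d * (d + 1)) / (2 * (1 + weight x z i) ^ 2) ≤ n - 1 := by
      rw [div_le_iff₀ (by positivity)]
      linarith
    linarith

/-- **Vectors and frames outside a maximal equiangular tight frame.** Let `x` be a maximal ETF in
`ℂ^d`, `d ≥ 2`.
* A unit vector `z` which spans none of the `d²` lines of `x` makes the angle `1/√(d+1)` of the
  frame with at most `d² - d` and with at most `d² - d^(3/2)/8` of them, with at most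
  `d² - (1 - ε) d^(3/2)` of them if `ε⁴ √d ≥ 128`, and with at most
  `d² - 1 - W⁴ d (d+1) / (2 (1 + W)²)` of them if one of its weights is `W > 0`.
* If `d ≥ 3`, it makes no angle whatsoever with more than `d² - d` of the lines.
* A maximal ETF `y` which does not have the same lines as `x` has at most `d² - d` and at most
  `d² - d^(3/2)/8` lines in common with `x`, and at most `d² - (1 - ε) d^(3/2)` if `ε⁴ √d ≥ 128`.
* In `ℂ³` there are two maximal ETFs with exactly `d² - d = 6` lines in common. -/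
theorem result :
    (∀ (d : ℕ) (x : Fin (d ^ 2) → EuclideanSpace ℂ (Fin d)), 2 ≤ d → IsMaxETF d x →
      ∀ z : EuclideanSpace ℂ (Fin d), ‖z‖ = 1 →
      (∀ (i : Fin (d ^ 2)) (c : ℂ), z ≠ c • x i) →
        Few d (linesAt x z (1 / Real.sqrt ((d : ℝ) + 1))) ∧
        (∀ i, 0 < weight x z i → (linesAt x z (1 / Real.sqrt ((d : ℝ) + 1)) : ℝ) ≤
          (d : ℝ) ^ 2 - 1 - weight x z i ^ 4 * (d * (d + 1)) / (2 * (1 + weight x z i) ^ 2)) ∧
        (3 ≤ d → ∀ a : ℝ, linesAt x z a + d ≤ d ^ 2)) ∧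
    (∀ (d : ℕ) (x y : Fin (d ^ 2) → EuclideanSpace ℂ (Fin d)), 2 ≤ d → IsMaxETF d x →
      IsMaxETF d y → (∃ i, ∀ (j : Fin (d ^ 2)) (c : ℂ), x i ≠ c • y j) →
        Few d (commonLines x y)) ∧
    (∃ x y : Fin (3 ^ 2) → EuclideanSpace ℂ (Fin 3), IsMaxETF 3 x ∧ IsMaxETF 3 y ∧
      (∃ i, ∀ (j : Fin (3 ^ 2)) (c : ℂ), x i ≠ c • y j) ∧ commonLines x y = 3 ^ 2 - 3) := by
  classical
  have part2 : ∀ (d : ℕ) (x y : Fin (d ^ 2) → EuclideanSpace ℂ (Fin d)), 2 ≤ d → IsMaxETF d x →
      IsMaxETF d y → (∃ i, ∀ (j : Fin (d ^ 2)) (c : ℂ), x i ≠ c • y j) →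
        Few d (commonLines x y) := by
    rintro d x y hd hx hy ⟨i0, hi0⟩
    have hf := (foreign (by omega) hy (hx.1 i0) hi0).1
    refine hf.mono ?_
    have hd1 : (0 : ℝ) < (d : ℝ) := by exact_mod_cast (by omega : 0 < d)
    have hlt : 1 / Real.sqrt ((d : ℝ) + 1) < 1 := by
      rw [div_lt_one (Real.sqrt_pos.mpr (by linarith)), Real.lt_sqrt (by norm_num)]
      linarith
    let f : {i // ∃ (j : Fin (d ^ 2)) (c : ℂ), x i = c • y j} →
        {j // ‖inner ℂ (y j) (x i0)‖ = 1 / Real.sqrt ((d : ℝ) + 1)} := fun i =>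
      ⟨i.2.choose, by
        obtain ⟨c, hc⟩ := i.2.choose_spec
        have hne : i.1 ≠ i0 := by
          intro h
          exact hi0 _ c (by rw [← h]; exact hc)
        have hcn : ‖c‖ = 1 := by
          have h1 := hx.1 i.1
          rw [hc, norm_smul, hy.1, mul_one] at h1
          exact h1
        have h2 := hx.2 i.1 i0 hne
        rw [hc, inner_smul_left, norm_mul, Complex.norm_conj, hcn, one_mul] at h2
        exact h2⟩
    have hfi : Function.Injective f := by
      intro a b hab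
      have h1 : a.2.choose = b.2.choose := congrArg Subtype.val hab
      obtain ⟨c, hc⟩ := a.2.choose_spec
      obtain ⟨c', hc'⟩ := b.2.choose_spec
      rw [← h1] at hc'
      by_contra hne
      have hne' : a.1 ≠ b.1 := fun h => hne (Subtype.ext h)
      have h2 := hx.2 a.1 b.1 hne'
      have n1 : ‖c‖ = 1 := by
        have h1 := hx.1 a.1
        rw [hc, norm_smul, hy.1, mul_one] at h1
        exact h1
      have n2 : ‖c'‖ = 1 := by
        have h1 := hx.1 b.1
        rw [hc', norm_smul, hy.1, mul_one] at h1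
        exact h1
      rw [hc, hc', inner_smul_left, inner_smul_right, norm_mul, norm_mul, Complex.norm_conj, n1, n2,
        inner_self_eq_norm_sq_to_K, hy.1] at h2
      simp at h2
      rw [one_div] at hlt
      linarith
    exact Nat.card_le_card_of_injective f hfi
  refine ⟨fun d x hd hx z hz hf => ⟨(foreign (by omega) hx hz hf).1,
    (foreign (by omega) hx hz hf).2, fun hd3 a => ?_⟩, part2, ?_⟩
  · have hp : ∀ i, ‖inner ℂ (x i) z‖ ^ 2 < 1 := fun i =>
      Pool.Agent.H207.SR.lt_one_of_foreign hz (hx.1 i) (hf i)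
    have h1 := Pool.Agent.H207.SR.card_ge_d_gen hd3 hx hz hp a
    have h3 : linesAt x z a = (Finset.univ.filter fun i => ‖inner ℂ (x i) z‖ = a).card := by
      rw [linesAt, Nat.card_eq_fintype_card, Fintype.card_subtype]
    have h2 := Finset.card_filter_add_card_filter_not (s := (Finset.univ : Finset (Fin (d ^ 2))))
      (fun i => ‖inner ℂ (x i) z‖ = a)
    rw [Finset.card_univ, Fintype.card_fin, ← h3] at h2
    rw [← h2]
    exact Nat.add_le_add_left h1 _
  · have hsq : (1 : ℝ) / Real.sqrt (((3 : ℕ) : ℝ) + 1) = 1 / 2 := by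
      have : Real.sqrt (((3 : ℕ) : ℝ) + 1) = 2 := by
        rw [show (((3 : ℕ) : ℝ) + 1) = 2 ^ 2 by norm_num]
        exact Real.sqrt_sq (by norm_num)
      rw [this]
    have hm : IsMaxETF 3 (Pool.Agent.H207.SR.fam (-1)) :=
      ⟨fun i => Pool.Agent.H207.SR.fam_norm (by simp) i, fun i j hij => by
        rw [Pool.Agent.H207.SR.fam_angle (by simp) hij, hsq]⟩
    have hp : IsMaxETF 3 (Pool.Agent.H207.SR.fam 1) :=
      ⟨fun i => Pool.Agent.H207.SR.fam_norm (by simp) i, fun i j hij => by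
        rw [Pool.Agent.H207.SR.fam_angle (by simp) hij, hsq]⟩
    have hfor : ∃ i, ∀ (j : Fin (3 ^ 2)) (c : ℂ),
        Pool.Agent.H207.SR.fam (-1) i ≠ c • Pool.Agent.H207.SR.fam 1 j := by
      refine ⟨6, fun j c h => ?_⟩
      have s0 : ((1 / Real.sqrt 2 : ℝ) : ℂ) ≠ 0 := by
        rw [Ne, Complex.ofReal_eq_zero]; positivity
      have e0 := congrArg (fun v : EuclideanSpace ℂ (Fin 3) => v 0) h
      have e1 := congrArg (fun v : EuclideanSpace ℂ (Fin 3) => v 1) h
      have hom : Pool.Agent.H207.SR.om ≠ -1 := by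
        intro h; have := congrArg Complex.re h; simp [Pool.Agent.H207.SR.om] at this; norm_num at this
      have hom' : (starRingEnd ℂ) Pool.Agent.H207.SR.om ≠ -1 := by
        intro h; have := congrArg Complex.re h; simp [Pool.Agent.H207.SR.om] at this; norm_num at this
      fin_cases j <;>
        simp [Pool.Agent.H207.SR.fam, Pool.Agent.H207.SR.V_apply, Pool.Agent.H207.SR.omp,
          Fin.ofNat] at e0 e1
      · rw [e0, one_mul] at e1
        simp at s0
        have h2 : (2 : ℂ) * (Real.sqrt 2 : ℂ)⁻¹ = 0 := by linear_combination -e1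
        simp [s0] at h2
      · rw [e0, one_mul] at e1
        simp at s0
        have h2 : (Pool.Agent.H207.SR.om + 1) * (Real.sqrt 2 : ℂ)⁻¹ = 0 := by
          linear_combination -e1
        rcases mul_eq_zero.mp h2 with h3 | h3
        · exact hom (eq_neg_of_add_eq_zero_left h3)
        · simp [s0] at h3
      · rw [e0, one_mul] at e1
        simp at s0
        have h2 : ((starRingEnd ℂ) Pool.Agent.H207.SR.om + 1) * (Real.sqrt 2 : ℂ)⁻¹ = 0 := by
          linear_combination -e1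
        rcases mul_eq_zero.mp h2 with h3 | h3
        · exact hom' (eq_neg_of_add_eq_zero_left h3)
        · simp [s0] at h3
    refine ⟨Pool.Agent.H207.SR.fam (-1), Pool.Agent.H207.SR.fam 1, hm, hp, hfor, ?_⟩
    apply le_antisymm
    · have := (part2 3 _ _ (by norm_num) hm hp hfor).1
      omega
    · rw [commonLines, Nat.card_eq_fintype_card, Fintype.card_subtype]
      have h6 : (Finset.univ.filter fun i : Fin (3 ^ 2) => (i : ℕ) < 6).card = 3 ^ 2 - 3 := by decide
      rw [← h6]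
      apply Finset.card_le_card
      intro i hi
      rw [Finset.mem_filter] at hi ⊢
      refine ⟨Finset.mem_univ _, i, 1, ?_⟩
      rw [one_smul, Pool.Agent.H207.SR.fam, Pool.Agent.H207.SR.fam, if_pos hi.2, if_pos hi.2]

end Pool.Agent.Results.MP_d0f9e0_co.ForeignVectors
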