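import Mathlib
import Pool.Agent.helper391_PS.Fac2
import Pool.Agent.helper391_PS.Exist

/-!
# Weyl–Heisenberg orbits with a symmetry inverting displacements

Let `A` be a finite abelian group and `d = |A|`. The displacement operators `D_{a,χ}`, `a ∈ A`,
`χ` a character of `A`, act on `ℂ^A` by `(D_{a,χ} φ)(x) = χ(x) φ(x - a)`. We determine the groups `A`
for which some orbit of these operators is a maximal equiangular tight frame with a symmetry which
inverts the displacement operators up to scalars, e.g. the parity operator `φ(x) ↦ φ(-x)`: these are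
exactly the groups of order `1`, `2`, `3` and the elementary abelian group of order `8`. If
`A = C × B` and the symmetry inverts only the displacements of a factor `B ≠ 1` of odd order and
centralises those of `C` (this occurs in the literature for the aligned fiducials in dimensions
`n (n - 2)`), then `|A| + 1 = m²` with `m` even and `m ≤ |B| + 1`, and `|C| = |B| ± 2` if `|B|` is a
prime power.

Idea of the proof. A nonzero operator inverting all displacements is a displaced parity operator, and
the displacement can be removed. For a parity symmetric fiducial `ψ` the numbers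
`√(d+1) ⟨ψ, D_{a,χ} ψ⟩` are square roots of the roots of unity `χ(a)`. The relation `P ψ = ± ψ`,
expanded in displacement operators, shows that `d + 1` is a perfect square, and, by Galois theory,
that the overlaps of `ψ` are invariant under multiplication of `(a, χ)` by the integer which is `1`
modulo `|C|` and `-1` modulo `|B|` if `A = C × B` with `|C|`, `|B|` coprime and `|B|` odd. Hence `ψ`
is symmetric under the parity operator of `B` alone. If `C` is not trivial then a fixed displacement
in `C` leads to a function on `B × B` whose transforms have constant modulus, and the parity of a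
number of signs gives a contradiction. As `d = (m-1)(m+1)`, this only leaves `d = 1, 2, 3` and
`d = 2^k`, where `2^k + 1` is a square, so that `d = 8`. The groups `ℤ/8` and `ℤ/4 × ℤ/2` are
excluded by looking at the phases of a few overlaps. For the last statement the relation `P ψ = ± ψ`
for the parity operator `P` of `B` is evaluated at the displacements of `B`.
-/

set_option autoImplicit false

namespace Pool.Agent.Results.MP_d0f9e0_co.InvertingSymmetry

open Finset
open scoped ComplexConjugate

/-- `v` is a maximal equiangular tight frame in `ℂ^ι`: `d²` unit vectors, `d = |ι|`, whose pairwise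
inner products all have modulus `1/√(d+1)`. -/
def IsMaximalETF {ι κ : Type} [Fintype ι] (v : κ → EuclideanSpace ℂ ι) : Prop :=
  Nat.card κ = Fintype.card ι ^ 2 ∧ (∀ k, ‖v k‖ = 1) ∧
    ∀ k l, k ≠ l → ‖inner ℂ (v k) (v l)‖ = 1 / Real.sqrt ((Fintype.card ι : ℝ) + 1)

variable {A : Type} [AddCommGroup A] [Fintype A]

/-- The displacement operator `D_{a,χ}`: `(D_{a,χ} φ)(x) = χ(x) φ(x - a)`. -/
noncomputable def displacement (a : A) (χ : AddChar A ℂ) (φ : EuclideanSpace ℂ A) :
    EuclideanSpace ℂ A := WithLp.toLp 2 fun x => χ x * φ (x - a)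

/-- The orbit of `ψ` under all displacement operators. -/
noncomputable def orbit (ψ : EuclideanSpace ℂ A) (p : A × AddChar A ℂ) : EuclideanSpace ℂ A :=
  displacement p.1 p.2 ψ

/-- The operator `U` is not zero and inverts all displacement operators up to scalars:
`U D_{a,χ} = c D_{-a,-χ} U`. -/
def InvertsDisplacements (U : EuclideanSpace ℂ A →ₗ[ℂ] EuclideanSpace ℂ A) : Prop :=
  U ≠ 0 ∧ ∀ (a : A) (χ : AddChar A ℂ), ∃ c : ℂ, ∀ φ,
    U (displacement a χ φ) = c • displacement (-a) (-χ) (U φ)

/-- The operator `U` on `ℂ^(C × B)` is not zero, inverts the displacements of the factor `B` and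
centralises those of the factor `C`, up to scalars: `U D_{a,χ} = c D_{τa,χ∘τ} U` where
`τ(x, y) = (x, -y)`. -/
def InvertsFactor {C B : Type} [AddCommGroup C] [AddCommGroup B] [Fintype C] [Fintype B]
    (U : EuclideanSpace ℂ (C × B) →ₗ[ℂ] EuclideanSpace ℂ (C × B)) : Prop :=
  U ≠ 0 ∧ ∀ (x : C) (y : B) (χ χ' : AddChar (C × B) ℂ), (∀ z w, χ' (z, w) = χ (z, -w)) →
    ∃ c : ℂ, ∀ φ, U (displacement (x, y) χ φ) = c • displacement (x, -y) χ' (U φ)

omit [Fintype A] in
theorem char_norm (χ : AddChar A ℂ) [Finite A] (x : A) : ‖χ x‖ = 1 := AddChar.norm_apply χ x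

theorem norm_disp (a : A) (χ : AddChar A ℂ) (ψ : EuclideanSpace ℂ A) :
    ‖displacement a χ ψ‖ ^ 2 = ∑ x, ‖ψ x‖ ^ 2 := by
  rw [EuclideanSpace.norm_sq_eq, ← Equiv.sum_comp (Equiv.addRight a)]
  refine Finset.sum_congr rfl fun x _ => ?_
  simp only [displacement, Equiv.coe_addRight, add_sub_cancel_right, norm_mul]
  rw [char_norm, one_mul]

theorem inner_disp (ψ : EuclideanSpace ℂ A) (p q : A × AddChar A ℂ) :
    ‖inner ℂ (orbit ψ p) (orbit ψ q)‖ =
      ‖helper391_PS.ov (fun x => ψ x) (q.1 - p.1) (q.2 - p.2)‖ := by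
  classical
  have h1 : inner ℂ (orbit ψ p) (orbit ψ q) =
      (q.2 - p.2) q.1 * helper391_PS.ov (fun x => ψ x) (q.1 - p.1) (q.2 - p.2) := by
    unfold helper391_PS.ov orbit displacement
    rw [PiLp.inner_apply, Finset.mul_sum, ← Equiv.sum_comp (Equiv.addRight q.1)]
    refine Finset.sum_congr rfl fun x _ => ?_
    simp only [Equiv.coe_addRight, RCLike.inner_apply, map_mul, add_sub_cancel_right]
    rw [helper391_PS.char_conj, show x + q.1 - p.1 = x + (q.1 - p.1) by abel]
    have h2 : (q.2 - p.2) q.1 * (q.2 - p.2) x = q.2 (x + q.1) * p.2 (-(x + q.1)) := by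
      rw [← AddChar.map_add_eq_mul, sub_eq_add_neg q.2, AddChar.add_apply, AddChar.neg_apply,
        add_comm q.1 x]
    linear_combination (-(ψ x) * conj (ψ (x + (q.1 - p.1)))) * h2
  rw [h1, norm_mul, char_norm, one_mul]

theorem etf_iff (ψ : EuclideanSpace ℂ A) :
    IsMaximalETF (orbit ψ) ↔ helper391_PS.Fid (fun x => ψ x) := by
  have hpos : (0 : ℝ) < (Fintype.card A : ℝ) + 1 := by positivity
  have hs : Real.sqrt ((Fintype.card A : ℝ) + 1) ^ 2 = (Fintype.card A : ℝ) + 1 :=
    Real.sq_sqrt hpos.le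
  have hs0 : 0 < Real.sqrt ((Fintype.card A : ℝ) + 1) := Real.sqrt_pos.2 hpos
  constructor
  · rintro ⟨-, h1, h2⟩
    refine ⟨?_, ?_⟩
    · have h3 := h1 (0, 0)
      have h4 := norm_disp (0 : A) 0 ψ
      rw [show displacement (0 : A) 0 ψ = orbit ψ (0, 0) from rfl, h3, one_pow] at h4
      exact h4.symm
    · intro a χ hne
      have h3 := h2 (0, 0) (a, χ) (fun hc => hne hc.symm)
      rw [inner_disp] at h3
      simp only [sub_zero] at h3
      rw [h3, div_pow, one_pow, hs]
  · intro h
    refine ⟨?_, ?_, ?_⟩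
    · rw [Nat.card_eq_fintype_card, Fintype.card_prod, AddChar.card_eq, sq]
    · intro p
      have h4 := norm_disp p.1 p.2 ψ
      rw [h.unit] at h4
      have h5 : ‖displacement p.1 p.2 ψ‖ * ‖displacement p.1 p.2 ψ‖ = 1 := by
        rw [← sq]; exact h4
      rcases mul_self_eq_one_iff.1 h5 with h6 | h6
      · exact h6
      · exfalso
        have := norm_nonneg (displacement p.1 p.2 ψ)
        rw [h6] at this
        norm_num at this
    · intro p q hpq
      rw [inner_disp]
      have h3 := h.ang (q.1 - p.1) (q.2 - p.2) (by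
        intro hc
        apply hpq
        obtain ⟨e1, e2⟩ := Prod.mk.inj hc
        exact (Prod.ext (sub_eq_zero.1 e1) (sub_eq_zero.1 e2)).symm)
      have h5 : ‖helper391_PS.ov (fun x => ψ x) (q.1 - p.1) (q.2 - p.2)‖ ^ 2 =
          (1 / Real.sqrt ((Fintype.card A : ℝ) + 1)) ^ 2 := by
        rw [h3, div_pow, one_pow, hs]
      exact (sq_eq_sq₀ (norm_nonneg _) (by positivity)).1 h5

/-- The order of `A` is `1`, `2` or `3`, or `A` is the elementary abelian group of order `8`. -/
def Exceptional (A : Type) [AddCommGroup A] [Fintype A] : Prop :=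
  Fintype.card A = 1 ∨ Fintype.card A = 2 ∨ Fintype.card A = 3 ∨
    (Fintype.card A = 8 ∧ ∀ x : A, x + x = 0)

theorem full (A : Type) [AddCommGroup A] [Fintype A] (ψ : EuclideanSpace ℂ A)
    (U : EuclideanSpace ℂ A →ₗ[ℂ] EuclideanSpace ℂ A) (l : ℂ) (h1 : IsMaximalETF (orbit ψ))
    (h2 : InvertsDisplacements U) (h3 : U ψ = l • ψ) : Exceptional A := by
  obtain ⟨hU0, hU⟩ := h2
  let e : EuclideanSpace ℂ A ≃ₗ[ℂ] (A → ℂ) := WithLp.linearEquiv 2 ℂ (A → ℂ)
  refine helper391_PS.main_oper ((etf_iff ψ).1 h1) (e.toLinearMap ∘ₗ U ∘ₗ e.symm.toLinearMap)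
    ?_ ?_ l ?_
  · intro hc
    apply hU0
    ext φ x
    have h4 := congrFun (LinearMap.congr_fun hc (e φ)) x
    show e (U φ) x = 0
    simpa using h4
  · intro a χ
    obtain ⟨c, hc⟩ := hU a χ
    refine ⟨c, fun φ => ?_⟩
    have h4 := hc (e.symm φ)
    have h5 : displacement a χ (e.symm φ) = e.symm (helper391_PS.dis a χ φ) := rfl
    rw [h5] at h4
    show e (U (e.symm (helper391_PS.dis a χ φ))) = _
    rw [h4, map_smul]
    rfl
  · have h5 : e.symm (fun x => ψ x) = ψ := rfl
    show e (U (e.symm (fun x => ψ x))) = _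
    rw [h5, h3, map_smul]
    rfl

theorem exists_parity (A : Type) [AddCommGroup A] [Fintype A] (hA : Exceptional A) :
    ∃ ψ : EuclideanSpace ℂ A, IsMaximalETF (orbit ψ) ∧ ∀ x, ψ (-x) = ψ x := by
  have hex : ∃ ψ : A → ℂ, helper391_PS.Fid ψ ∧ helper391_PS.Par ψ 1 := by
    rcases hA with h | h | h | ⟨h, h2⟩
    · exact helper391_PS.exist_one h
    · exact helper391_PS.exist_two h
    · exact helper391_PS.exist_three h
    · exact helper391_PS.exist_eight h h2
  obtain ⟨ψ, h1, h2⟩ := hex
  refine ⟨WithLp.toLp 2 ψ, (etf_iff _).2 h1, fun x => ?_⟩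
  have := h2 x
  rw [one_mul] at this
  exact this

theorem factor (C B : Type) [AddCommGroup C] [Fintype C] [AddCommGroup B] [Fintype B]
    (hodd : Odd (Fintype.card B)) (hB : 1 < Fintype.card B) (ψ : EuclideanSpace ℂ (C × B))
    (U : EuclideanSpace ℂ (C × B) →ₗ[ℂ] EuclideanSpace ℂ (C × B)) (l : ℂ)
    (h1 : IsMaximalETF (orbit ψ)) (h2 : InvertsFactor U) (h3 : U ψ = l • ψ) :
    ∃ m : ℕ, m ^ 2 = Fintype.card C * Fintype.card B + 1 ∧ Even m ∧
      m ≤ Fintype.card B + 1 := by
  obtain ⟨hU0, hU⟩ := h2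
  let e : EuclideanSpace ℂ (C × B) ≃ₗ[ℂ] (C × B → ℂ) := WithLp.linearEquiv 2 ℂ (C × B → ℂ)
  refine helper391_PS.fac_main hodd hB ((etf_iff ψ).1 h1)
    (e.toLinearMap ∘ₗ U ∘ₗ e.symm.toLinearMap) ?_ ?_ l ?_
  · intro hc
    apply hU0
    ext φ x
    have h4 := congrFun (LinearMap.congr_fun hc (e φ)) x
    show e (U φ) x = 0
    simpa using h4
  · rintro ⟨x, y⟩ χ
    obtain ⟨c, hc⟩ := hU x y χ (χ.compAddMonoidHom (helper391_PS.flipHom C B))
      (fun z w => by rw [AddChar.compAddMonoidHom_apply, helper391_PS.flip_apply])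
    refine ⟨c, fun φ => ?_⟩
    have h4 := hc (e.symm φ)
    have h5 : displacement (x, y) χ (e.symm φ) = e.symm (helper391_PS.dis (x, y) χ φ) := rfl
    rw [h5] at h4
    show e (U (e.symm (helper391_PS.dis (x, y) χ φ))) = _
    rw [h4, map_smul]
    rfl
  · have h5 : e.symm (fun x => ψ x) = ψ := rfl
    show e (U (e.symm (fun x => ψ x))) = _
    rw [h5, h3, map_smul]
    rfl

/-- **Symmetries inverting displacements.** (1) Let the orbit of `ψ` under the displacement
operators of the finite abelian group `A` be a maximal equiangular tight frame, and let `ψ` be an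
eigenvector of a nonzero operator `U` which inverts all displacement operators up to scalars. Then
`|A|` is `1`, `2`, `3`, or `A` is the elementary abelian group of order `8`. (2) For these groups
there is a vector `ψ` with `ψ(-x) = ψ(x)` for all `x` whose orbit is a maximal equiangular tight
frame. (3) Let the orbit of `ψ` under the displacement operators of `C × B` be a maximal equiangular
tight frame, where `|B| > 1` is odd, and let `ψ` be an eigenvector of a nonzero operator which
inverts the displacements of `B` and centralises those of `C` up to scalars. Then `|C| |B| + 1 = m²`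
with `m` even and `m ≤ |B| + 1`; if `|B|` is a prime power then `|C| = |B| ± 2`. -/
theorem result :
    (∀ (A : Type) [AddCommGroup A] [Fintype A] (ψ : EuclideanSpace ℂ A)
      (U : EuclideanSpace ℂ A →ₗ[ℂ] EuclideanSpace ℂ A) (l : ℂ),
      IsMaximalETF (orbit ψ) → InvertsDisplacements U → U ψ = l • ψ → Exceptional A) ∧
    (∀ (A : Type) [AddCommGroup A] [Fintype A], Exceptional A →
      ∃ ψ : EuclideanSpace ℂ A, IsMaximalETF (orbit ψ) ∧ ∀ x, ψ (-x) = ψ x) ∧
    (∀ (C B : Type) [AddCommGroup C] [Fintype C] [AddCommGroup B] [Fintype B],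
      Odd (Fintype.card B) → 1 < Fintype.card B → ∀ (ψ : EuclideanSpace ℂ (C × B))
      (U : EuclideanSpace ℂ (C × B) →ₗ[ℂ] EuclideanSpace ℂ (C × B)) (l : ℂ),
      IsMaximalETF (orbit ψ) → InvertsFactor U → U ψ = l • ψ →
      (∃ m : ℕ, m ^ 2 = Fintype.card C * Fintype.card B + 1 ∧ Even m ∧
        m ≤ Fintype.card B + 1) ∧
      (IsPrimePow (Fintype.card B) →
        Fintype.card C = Fintype.card B + 2 ∨ Fintype.card C + 2 = Fintype.card B)) := by
  refine ⟨fun A _ _ ψ U l h1 h2 h3 => full A ψ U l h1 h2 h3, fun A _ _ hA => exists_parity A hA,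
    ?_⟩
  intro C B _ _ _ _ hodd hB ψ U l h1 h2 h3
  have h4 := factor C B hodd hB ψ U l h1 h2 h3
  refine ⟨h4, fun hpp => ?_⟩
  obtain ⟨m, hm1, hm2, hm3⟩ := h4
  obtain ⟨p, k, hp, hk, hpk⟩ := hpp
  rw [← hpk] at hm1 hm3 hB hodd ⊢
  refine helper391_PS.fac_num (Nat.prime_iff.2 hp) ?_ hB hm1 hm2 hm3
  rintro rfl
  obtain ⟨r, hr⟩ := hodd
  have : 2 ∣ 2 ^ k := dvd_pow_self 2 (by omega)
  omega

end Pool.Agent.Results.MP_d0f9e0_co.InvertingSymmetry
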