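import Pool.Agent.H207.WH.Fid

/-!
# The overlaps of a Weyl–Heisenberg maximal equiangular tight frame at the places over `p`

Let `p` be an odd prime and let the Weyl–Heisenberg orbit of `ψ` be a maximal equiangular tight
frame of `ℂ^p`.  At every place over `p` the overlaps, divided by one of largest absolute value, are
periodic modulo the place.  If the symmetries of `ψ` have no common eigenvector (for instance if
`ψ` has Zauner's symmetry and `p ≡ 2 mod 3`), then all overlaps are algebraic numbers which are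
units at `p` and congruent to `1` modulo every place over `p`.
-/

set_option autoImplicit false

namespace Pool.Agent.Results.MP_d0f9e0_co.OverlapCongruence

variable {p : ℕ} [Fact p.Prime]

/-- The displacement operator `D_(a,b)`: `(D_(a,b) ψ)(k) = exp(2 π i b k / p) ψ(k + a)`. -/
noncomputable def disp (g : ZMod p × ZMod p) (ψ : EuclideanSpace ℂ (ZMod p)) :
    EuclideanSpace ℂ (ZMod p) :=
  WithLp.toLp 2 (fun k => ZMod.stdAddChar (g.2 * k) * ψ (k + g.1))

/-- the overlap `⟨ψ, D_g ψ⟩` -/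
noncomputable def overlap (ψ : EuclideanSpace ℂ (ZMod p)) (g : ZMod p × ZMod p) : ℂ :=
  inner ℂ ψ (disp g ψ)

/-- The orbit `(D_g ψ)_g` is a maximal equiangular tight frame: `p ^ 2` unit vectors with
`|⟨D_g ψ, D_h ψ⟩| = 1 / √(p + 1)` for `g ≠ h`. -/
def OrbitIsMaxETF (ψ : EuclideanSpace ℂ (ZMod p)) : Prop :=
  (∀ g, ‖disp g ψ‖ = 1) ∧
    ∀ g h : ZMod p × ZMod p, g ≠ h → ‖inner ℂ (disp g ψ) (disp h ψ)‖ = 1 / √((p : ℝ) + 1)

/-- `B` is a place over `p`: a valuation ring of `ℂ` whose maximal ideal contains `p`. -/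
def Over (p : ℕ) (B : ValuationSubring ℂ) : Prop := (p : ℂ) ∈ B.nonunits

/-- `ψ` is an eigenvector of a unitary transformation `U` with `U D_g U⁻¹ = c_g D_(M g)`. -/
def HasSymmetry (ψ : EuclideanSpace ℂ (ZMod p))
    (M : (ZMod p × ZMod p) ≃ₗ[ZMod p] (ZMod p × ZMod p)) : Prop :=
  ∃ U : EuclideanSpace ℂ (ZMod p) ≃ₗᵢ[ℂ] EuclideanSpace ℂ (ZMod p),
    (∃ c : ℂ, U ψ = c • ψ) ∧ ∀ g, ∃ c : ℂ, ∀ x, U (disp g x) = c • disp (M g) (U x)

/-- `M` permutes the overlaps of `ψ` up to `p`-th roots of unity. -/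
def PermutesOverlaps (ψ : EuclideanSpace ℂ (ZMod p))
    (M : (ZMod p × ZMod p) ≃ₗ[ZMod p] (ZMod p × ZMod p)) : Prop :=
  ∀ g, ∃ c : ℂ, c ^ p = 1 ∧ overlap ψ (M g) = c * overlap ψ g

/-- Zauner's transformation `(a, b) ↦ (-b, a - b)` of order three. -/
def zauner (p : ℕ) [Fact p.Prime] : (ZMod p × ZMod p) ≃ₗ[ZMod p] (ZMod p × ZMod p) where
  toFun g := (-g.2, g.1 - g.2)
  invFun g := (g.2 - g.1, -g.1)
  map_add' g h := by ext <;> simp <;> ring
  map_smul' c g := by ext <;> simp [mul_sub]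
  left_inv g := by ext <;> simp
  right_inv g := by ext <;> simp

/-- All overlaps are algebraic numbers, units at `p` (a natural number `n` prime to `p` makes
`n ⟨ψ, D_g ψ⟩` and `n ⟨ψ, D_g ψ⟩⁻¹` algebraic integers) and congruent to `1` modulo every place
over `p`. -/
def OverlapsCongruentOne (ψ : EuclideanSpace ℂ (ZMod p)) : Prop :=
  ∀ g, (∃ n : ℕ, ¬ p ∣ n ∧ IsIntegral ℤ ((n : ℂ) * overlap ψ g) ∧
      IsIntegral ℤ ((n : ℂ) * (overlap ψ g)⁻¹)) ∧
    ∀ B : ValuationSubring ℂ, Over p B → overlap ψ g - 1 ∈ B.nonunits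

theorem overlap_eq (ψ : EuclideanSpace ℂ (ZMod p)) (g : ZMod p × ZMod p) :
    overlap ψ g = H207.WH.ov ZMod.stdAddChar (fun k => (starRingEnd ℂ) (ψ k)) ψ g.1 g.2 := by
  rw [H207.WH.ov_ovl]
  exact H207.WH.inner_disp g ψ

theorem sic (ψ : EuclideanSpace ℂ (ZMod p)) (hψ : OrbitIsMaxETF ψ) : ‖ψ‖ = 1 ∧
    H207.WH.Sic ZMod.stdAddChar (fun k => (starRingEnd ℂ) (ψ k)) ψ := by
  have h0 : disp (0 : ZMod p × ZMod p) ψ = ψ := H207.WH.disp_zero ψ
  have h1 := hψ.1 0
  rw [h0] at h1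
  refine ⟨h1, H207.WH.sic_of ψ h1 (fun g hg => ?_)⟩
  have h2 := hψ.2 0 g (Ne.symm hg)
  rw [h0] at h2
  exact h2

theorem congruent (hp : p ≠ 2) (ψ : EuclideanSpace ℂ (ZMod p)) (hψ : OrbitIsMaxETF ψ)
    (h : ∀ v : ZMod p × ZMod p, v ≠ 0 → ∃ M, PermutesOverlaps ψ M ∧ ∀ c : ZMod p, M v ≠ c • v) :
    OverlapsCongruentOne ψ := by
  obtain ⟨h1, hS⟩ := sic ψ hψ
  have key : ∀ B : ValuationSubring ℂ, Over p B → ∀ g, overlap ψ g ∈ B ∧
      H207.WH.rs B (overlap ψ g) = 1 := by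
    intro B hB g
    rw [overlap_eq]
    apply H207.WH.cong B hp hB (ZMod.isPrimitive_stdAddChar p) hS
    intro v hv
    obtain ⟨M, hM, hMv⟩ := h v hv
    refine ⟨M, fun g => ?_, hMv⟩
    obtain ⟨c, hc, hcg⟩ := hM g
    rw [overlap_eq, overlap_eq] at hcg
    exact ⟨c, hc, hcg⟩
  intro g
  refine ⟨?_, fun B hB => ?_⟩
  · obtain ⟨n, hn, hni⟩ := H207.WH.int_of_places p (overlap ψ g) (fun B hB => (key B hB g).1)
    obtain ⟨m, hm, hmi⟩ := H207.WH.int_of_places p (overlap ψ g)⁻¹ (fun B hB => by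
      obtain ⟨h2, h3⟩ := key B hB g
      have h4 : B.valuation (overlap ψ g) = 1 := by
        rw [← H207.WH.rs_ne_zero_val B h2, h3]
        exact one_ne_zero
      exact H207.WH.inv_mem_of_val B h4)
    refine ⟨m * n, ?_, ?_, ?_⟩
    · intro hd
      rcases ((Fact.out : p.Prime).dvd_mul).mp hd with h2 | h2
      · exact hm h2
      · exact hn h2
    · push_cast
      rw [mul_assoc]
      exact (isIntegral_algebraMap (R := ℤ) (A := ℂ) (x := (m : ℤ))).mul hni |> fun h => by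
        simpa using h
    · push_cast
      rw [mul_comm (m : ℂ) n, mul_assoc]
      exact (isIntegral_algebraMap (R := ℤ) (A := ℂ) (x := (n : ℤ))).mul hmi |> fun h => by
        simpa using h
  · obtain ⟨h2, h3⟩ := key B hB g
    rw [← H207.WH.rs_eq_zero B (sub_mem h2 B.one_mem), H207.WH.rs_sub B h2 B.one_mem, h3,
      H207.WH.rs_one, sub_self]

theorem permutes (hp : p ≠ 2) (ψ : EuclideanSpace ℂ (ZMod p)) (hψ : OrbitIsMaxETF ψ)
    (M : (ZMod p × ZMod p) ≃ₗ[ZMod p] (ZMod p × ZMod p)) (hM : HasSymmetry ψ M) :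
    PermutesOverlaps ψ M := by
  obtain ⟨U, hU, hUM⟩ := hM
  intro g
  obtain ⟨j, hj⟩ := H207.WH.clifford hp ψ (sic ψ hψ).1 M U hU hUM g
  exact ⟨ZMod.stdAddChar j, H207.WH.chi_pow _ _, hj⟩

/-- Let `p` be an odd prime and let the Weyl–Heisenberg orbit of `ψ` be a maximal equiangular tight
frame of `ℂ^p`.
(1) For every place `B` over `p` there are `g₀` and `v ≠ 0` such that, modulo the maximal ideal of
`B`, the normalised overlaps `overlap g / overlap g₀` lie in `B` and are invariant under the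
translation by `v`.
(2) If no `v ≠ 0` is an eigenvector of all `M` which permute the overlaps up to `p`-th roots of
unity, then all overlaps are algebraic, units at `p` and congruent to `1` modulo every place over
`p`.
(3) A unitary symmetry `U D_g U⁻¹ = c_g D_(M g)`, `U ψ ∈ ℂ ψ`, permutes the overlaps in this way;
so (2) holds if `p ≡ 2 mod 3` and `ψ` has Zauner's symmetry of order three. -/
theorem result (hp : p ≠ 2) (ψ : EuclideanSpace ℂ (ZMod p)) (hψ : OrbitIsMaxETF ψ) :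
    (∀ B : ValuationSubring ℂ, Over p B → ∃ g₀ v : ZMod p × ZMod p, v ≠ 0 ∧ overlap ψ g₀ ≠ 0 ∧
      ∀ g, overlap ψ g / overlap ψ g₀ ∈ B ∧
        overlap ψ (g + v) / overlap ψ g₀ - overlap ψ g / overlap ψ g₀ ∈ B.nonunits) ∧
    ((∀ v : ZMod p × ZMod p, v ≠ 0 → ∃ M, PermutesOverlaps ψ M ∧ ∀ c : ZMod p, M v ≠ c • v) →
      OverlapsCongruentOne ψ) ∧
    (∀ M, HasSymmetry ψ M → PermutesOverlaps ψ M) ∧
    (p % 3 = 2 → HasSymmetry ψ (zauner p) → OverlapsCongruentOne ψ) := by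
  refine ⟨?_, congruent hp ψ hψ, permutes hp ψ hψ, ?_⟩
  · intro B hB
    obtain ⟨x0, y0, hA0, hmem, v, v', hvv, hinv⟩ :=
      H207.WH.red B hp hB (ZMod.isPrimitive_stdAddChar p) (sic ψ hψ).2
    refine ⟨(x0, y0), (v, v'), ?_, ?_, ?_⟩
    · intro h
      have h1 : v = 0 := congrArg Prod.fst h
      have h2 : v' = 0 := congrArg Prod.snd h
      rcases hvv with h3 | h3
      · exact h3 h1
      · exact h3 h2
    · rw [overlap_eq]
      exact hA0
    · intro g
      rw [overlap_eq, overlap_eq, overlap_eq]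
      refine ⟨hmem g.1 g.2, ?_⟩
      rw [← H207.WH.rs_eq_zero B (sub_mem (hmem _ _) (hmem _ _)),
        H207.WH.rs_sub B (hmem _ _) (hmem _ _), sub_eq_zero]
      exact hinv g.1 g.2
  · intro h3 hz
    apply congruent hp ψ hψ
    intro v hv
    exact ⟨zauner p, permutes hp ψ hψ _ hz, fun c => H207.WH.zauner h3 v hv c⟩

end Pool.Agent.Results.MP_d0f9e0_co.OverlapCongruence
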