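import Pool.Agent.H207.WH.Norm

/-!
# Redundancy of the equations for Weyl–Heisenberg maximal equiangular tight frames

A unit vector of `ℂ^d` which satisfies all but fewer than `d` (for an odd prime `d`: all but fewer
than `2 d - 2`) of the `d ^ 2 - 1` equations `|⟨ψ, D_g ψ⟩| = 1 / √(d + 1)` satisfies all of them, so
that its Weyl–Heisenberg orbit is a maximal equiangular tight frame.  The two numbers are best
possible for `d = 2` and `d = 3`.
-/

set_option autoImplicit false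

namespace Pool.Agent.Results.MP_d0f9e0_co.OverlapRedundancy

/-- The displacement operator `D_(a,b)`: `(D_(a,b) ψ)(k) = exp(2 π i b k / d) ψ(k + a)`. -/
noncomputable def disp {d : ℕ} [NeZero d] (g : ZMod d × ZMod d)
    (ψ : EuclideanSpace ℂ (ZMod d)) : EuclideanSpace ℂ (ZMod d) :=
  WithLp.toLp 2 (fun k => ZMod.stdAddChar (g.2 * k) * ψ (k + g.1))

/-- the set of the nonzero `g` for which the equation `|⟨ψ, D_g ψ⟩| = 1 / √(d + 1)` fails -/
def failures {d : ℕ} [NeZero d] (ψ : EuclideanSpace ℂ (ZMod d)) : Set (ZMod d × ZMod d) :=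
  {g | g ≠ 0 ∧ ‖inner ℂ ψ (disp g ψ)‖ ≠ 1 / √((d : ℝ) + 1)}

/-- The orbit `(D_g ψ)_g` is a maximal equiangular tight frame: `d ^ 2` unit vectors with
`|⟨D_g ψ, D_h ψ⟩| = 1 / √(d + 1)` for `g ≠ h`. -/
def OrbitIsMaxETF {d : ℕ} [NeZero d] (ψ : EuclideanSpace ℂ (ZMod d)) : Prop :=
  (∀ g, ‖disp g ψ‖ = 1) ∧
    ∀ g h : ZMod d × ZMod d, g ≠ h → ‖inner ℂ (disp g ψ) (disp h ψ)‖ = 1 / √((d : ℝ) + 1)

/-- Let `ψ` be a unit vector of `ℂ^d`.
(1) If fewer than `d` of the equations fail, then the orbit of `ψ` is a maximal equiangular tight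
frame.
(2) If `d` is an odd prime and fewer than `2 d - 2` of the equations fail, then the orbit of `ψ` is
a maximal equiangular tight frame.
(3) In `ℂ^2` exactly `2 = d` equations and in `ℂ^3` exactly `4 = 2 d - 2` equations can fail. -/
theorem result :
    (∀ (d : ℕ) [NeZero d] (ψ : EuclideanSpace ℂ (ZMod d)), ‖ψ‖ = 1 →
      (failures ψ).ncard < d → OrbitIsMaxETF ψ) ∧
    (∀ (d : ℕ) [Fact d.Prime], d ≠ 2 → ∀ ψ : EuclideanSpace ℂ (ZMod d), ‖ψ‖ = 1 →
      (failures ψ).ncard < 2 * d - 2 → OrbitIsMaxETF ψ) ∧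
    (∃ ψ : EuclideanSpace ℂ (ZMod 2), ‖ψ‖ = 1 ∧ (failures ψ).ncard = 2) ∧
    (∃ ψ : EuclideanSpace ℂ (ZMod 3), ‖ψ‖ = 1 ∧ (failures ψ).ncard = 4) := by
  refine ⟨?_, ?_, H207.WH.sharp2, H207.WH.sharp3⟩
  · intro d _ ψ hψ hfew
    refine ⟨fun g => ?_, H207.WH.main_all d ψ hψ hfew⟩
    have h := H207.WH.norm_disp g ψ
    rw [hψ] at h
    exact h
  · intro p _ hp ψ hψ hfew
    refine ⟨fun g => ?_, H207.WH.main p hp ψ hψ hfew⟩
    have h := H207.WH.norm_disp g ψ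
    rw [hψ] at h
    exact h

end Pool.Agent.Results.MP_d0f9e0_co.OverlapRedundancy
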